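import Mathlib

set_option autoImplicit false

/-!
# Separation of compact sets by small spheres

A Kirchberger-type theorem for compact sets and spheres of radius at most one. The sphere with
centre `c` and radius `r` is lifted to the point `(c, s)`, `s = r² - |c|²`, of `E × ℝ`; the
condition `r ≤ 1` is the convex condition `s + |c|² ≤ 1`, and the conditions `|x - c| < r`,
`|y - c| > r` are the affine inequalities `s - |x|² + 2⟨c, x⟩ > 0`, `|y|² - 2⟨c, y⟩ - s > 0`.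
By compactness, all `(d + 2)`-tuples admit a solution with a uniform gap `ε > 0`. Helly's theorem
in `E × ℝ` (of dimension `d + 1`) and a finite intersection argument for closed sets finish the
proof.
-/

namespace Pool.Agent.Results.MP_f10258_co.CompactSeparation

open Metric Set

/-- `X` and `Y` are strictly separated by the sphere with centre `c` and radius `r`. -/
def StrictSep {d : ℕ} (X Y : Set (EuclideanSpace ℝ (Fin d))) (c : EuclideanSpace ℝ (Fin d))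
    (r : ℝ) : Prop :=
  Disjoint X (sphere c r) ∧ Disjoint Y (sphere c r) ∧
    ((X ⊆ ball c r ∧ Y ⊆ (closedBall c r)ᶜ) ∨ (Y ⊆ ball c r ∧ X ⊆ (closedBall c r)ᶜ))

/-- The pair `(X, Y)` is small-sphere separable. -/
def SmallSep {d : ℕ} (X Y : Set (EuclideanSpace ℝ (Fin d))) : Prop :=
  ∃ (c : EuclideanSpace ℝ (Fin d)) (r : ℝ), 0 < r ∧ r ≤ 1 ∧ StrictSep X Y c r ∧ X ⊆ ball c r

variable {d : ℕ}

lemma smallSep_of {X Y : Set (EuclideanSpace ℝ (Fin d))} (c : EuclideanSpace ℝ (Fin d)) (r : ℝ)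
    (h0 : 0 < r) (h1 : r ≤ 1) (hX : ∀ x ∈ X, dist x c < r) (hY : ∀ y ∈ Y, r < dist y c) :
    SmallSep X Y := by
  refine ⟨c, r, h0, h1, ⟨?_, ?_, Or.inl ⟨?_, ?_⟩⟩, ?_⟩
  · rw [Set.disjoint_left]
    intro x hx hs
    exact (hX x hx).ne hs
  · rw [Set.disjoint_left]
    intro x hx hs
    exact (hY x hx).ne' hs
  · exact hX
  · intro y hy hc
    exact absurd (hY y hy) (not_lt.2 hc)
  · exact hX

lemma exists_sphere (hd : 1 ≤ d) {X Y : Set (EuclideanSpace ℝ (Fin d))}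
    (hY : Bornology.IsBounded Y) (h : SmallSep X Y) :
    ∃ (c : EuclideanSpace ℝ (Fin d)) (r : ℝ), 0 < r ∧ r ≤ 1 ∧ (∀ x ∈ X, dist x c < r) ∧
      ∀ y ∈ Y, r < dist y c := by
  obtain ⟨c, r, h0, h1, ⟨-, -, h2⟩, h3⟩ := h
  rcases X.eq_empty_or_nonempty with rfl | ⟨x, hx⟩
  · -- move the centre far away
    obtain ⟨R, hR⟩ := hY.subset_closedBall 0
    have : Nonempty (Fin d) := ⟨⟨0, by omega⟩⟩
    obtain ⟨c', hc'⟩ := exists_norm_eq (EuclideanSpace ℝ (Fin d)) (c := |R| + 2) (by positivity)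
    refine ⟨c', 1, one_pos, le_rfl, by simp, fun y hy => ?_⟩
    have h4 : ‖y‖ ≤ R := by simpa using hR hy
    have h5 : ‖c'‖ ≤ ‖y‖ + dist y c' := by
      rw [dist_eq_norm]
      calc ‖c'‖ = ‖y - (y - c')‖ := by congr 1; abel
        _ ≤ _ := norm_sub_le _ _
    have := le_abs_self R
    linarith
  · rcases h2 with ⟨-, h2⟩ | ⟨-, h2⟩
    · refine ⟨c, r, h0, h1, fun x hx => h3 hx, fun y hy => ?_⟩
      have := h2 hy
      simpa using this
    · exfalso
      have h4 := h2 hx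
      have h5 := h3 hx
      exact h4 (ball_subset_closedBall h5)

/-- the lifted constraints -/
noncomputable def g (z : EuclideanSpace ℝ (Fin d) × ℝ) (p : EuclideanSpace ℝ (Fin d) × ℝ) : ℝ :=
  z.2 * (p.2 - ‖z.1‖ ^ 2 + 2 * inner ℝ p.1 z.1)

/-- the convex condition that the radius is at most one -/
def P (d : ℕ) : Set (EuclideanSpace ℝ (Fin d) × ℝ) := {p | p.2 + ‖p.1‖ ^ 2 ≤ 1}

/-- the constraint points -/
def Z (A B : Set (EuclideanSpace ℝ (Fin d))) : Set (EuclideanSpace ℝ (Fin d) × ℝ) :=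
  A ×ˢ {1} ∪ B ×ˢ {-1}

lemma g_continuous : Continuous
    (fun q : (EuclideanSpace ℝ (Fin d) × ℝ) × (EuclideanSpace ℝ (Fin d) × ℝ) => g q.1 q.2) := by
  unfold g
  fun_prop

lemma P_closed : IsClosed (P d) := by
  apply isClosed_le
  · fun_prop
  · fun_prop

lemma P_convex : Convex ℝ (P d) := by
  intro p hp q hq a b ha hb hab
  simp only [P, mem_ofPred_eq, Prod.fst_add, Prod.snd_add, Prod.smul_fst, Prod.smul_snd,
    smul_eq_mul] at hp hq ⊢
  have h1 : ‖a • p.1 + b • q.1‖ ^ 2 ≤ a * ‖p.1‖ ^ 2 + b * ‖q.1‖ ^ 2 := by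
    have e1 : ‖a • p.1 + b • q.1‖ ^ 2 = a ^ 2 * ‖p.1‖ ^ 2 + 2 * (a * b * inner ℝ p.1 q.1)
        + b ^ 2 * ‖q.1‖ ^ 2 := by
      rw [norm_add_sq_real, norm_smul, norm_smul, inner_smul_left, inner_smul_right]
      simp only [Real.norm_eq_abs, mul_pow, sq_abs, RCLike.conj_to_real]
      ring
    have e2 : ‖p.1 - q.1‖ ^ 2 = ‖p.1‖ ^ 2 - 2 * inner ℝ p.1 q.1 + ‖q.1‖ ^ 2 :=
      norm_sub_sq_real _ _
    have hb' : b = 1 - a := by linarith
    have e3 : a * ‖p.1‖ ^ 2 + b * ‖q.1‖ ^ 2 - ‖a • p.1 + b • q.1‖ ^ 2 = a * b * ‖p.1 - q.1‖ ^ 2 := by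
      rw [e1, e2, hb']
      ring
    have := mul_nonneg (mul_nonneg ha hb) (sq_nonneg ‖p.1 - q.1‖)
    linarith
  nlinarith [mul_le_mul_of_nonneg_left hp ha, mul_le_mul_of_nonneg_left hq hb]

lemma g_affine (z p q : EuclideanSpace ℝ (Fin d) × ℝ) (a b : ℝ) (hab : a + b = 1) :
    g z (a • p + b • q) = a * g z p + b * g z q := by
  unfold g
  simp only [Prod.fst_add, Prod.snd_add, Prod.smul_fst, Prod.smul_snd, smul_eq_mul,
    inner_add_left, inner_smul_left, RCLike.conj_to_real]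
  have hb' : b = 1 - a := by linarith
  rw [hb']
  ring

lemma slab_convex (ε : ℝ) (z : EuclideanSpace ℝ (Fin d) × ℝ) :
    Convex ℝ {p | p ∈ P d ∧ ε ≤ g z p} := by
  rintro p ⟨hp, hp'⟩ q ⟨hq, hq'⟩ a b ha hb hab
  refine ⟨P_convex hp hq ha hb hab, ?_⟩
  rw [g_affine z p q a b hab]
  have h1 := mul_le_mul_of_nonneg_left hp' ha
  have h2 := mul_le_mul_of_nonneg_left hq' hb
  have h3 : ε = a * ε + b * ε := by rw [← add_mul, hab, one_mul]
  linarith

lemma slab_closed (ε : ℝ) (z : EuclideanSpace ℝ (Fin d) × ℝ) :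
    IsClosed {p | p ∈ P d ∧ ε ≤ g z p} := by
  have h : IsClosed {p : EuclideanSpace ℝ (Fin d) × ℝ | ε ≤ g z p} :=
    isClosed_le continuous_const (g_continuous.comp (by fun_prop : Continuous fun p => (z, p)))
  exact P_closed.inter h

lemma g_eq (x c : EuclideanSpace ℝ (Fin d)) (σ s : ℝ) :
    g (x, σ) (c, s) = σ * (s + ‖c‖ ^ 2 - dist x c ^ 2) := by
  unfold g
  rw [dist_eq_norm, norm_sub_sq_real, real_inner_comm]
  ring

lemma slab_compact {ε : ℝ} (hε : 0 < ε) (a : EuclideanSpace ℝ (Fin d)) :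
    IsCompact {p | p ∈ P d ∧ ε ≤ g (a, 1) p} := by
  have hK : IsCompact ((closedBall (0 : EuclideanSpace ℝ (Fin d)) (‖a‖ + 1)) ×ˢ
      (Icc (-(‖a‖ + 1) ^ 2) 1)) := (isCompact_closedBall _ _).prod isCompact_Icc
  refine hK.of_isClosed_subset (slab_closed ε _) ?_
  rintro ⟨c, s⟩ ⟨hp, hg⟩
  rw [g_eq] at hg
  simp only [P, mem_ofPred_eq] at hp
  have h1 : dist a c ^ 2 ≤ 1 := by linarith
  have h2 : dist a c ≤ 1 := by
    have := dist_nonneg (x := a) (y := c)
    nlinarith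
  have h3 : ‖c‖ ≤ ‖a‖ + 1 := by
    rw [dist_eq_norm] at h2
    calc ‖c‖ = ‖a - (a - c)‖ := by congr 1; abel
      _ ≤ ‖a‖ + ‖a - c‖ := norm_sub_le _ _
      _ ≤ _ := by linarith
  have h4 : ‖c‖ ^ 2 ≤ (‖a‖ + 1) ^ 2 := by
    have := norm_nonneg c
    nlinarith
  refine ⟨by simpa using h3, ?_, ?_⟩
  · have := sq_nonneg (dist a c)
    simp only
    linarith
  · have := sq_nonneg ‖c‖
    simp only
    linarith

lemma exists_witness (hd : 1 ≤ d) {A B : Set (EuclideanSpace ℝ (Fin d))}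
    (h : ∀ T : Set (EuclideanSpace ℝ (Fin d)), T ⊆ A ∪ B → T.encard ≤ (d + 2 : ℕ) →
      SmallSep (T ∩ A) (T ∩ B))
    (z : Fin (d + 2) → EuclideanSpace ℝ (Fin d) × ℝ) (hz : ∀ i, z i ∈ Z A B) :
    ∃ p ∈ P d, ∀ i, 0 < g (z i) p := by
  classical
  let T : Finset (EuclideanSpace ℝ (Fin d)) := Finset.univ.image (fun i => (z i).1)
  have hT : (T : Set (EuclideanSpace ℝ (Fin d))) ⊆ A ∪ B := by
    intro x hx
    simp only [T, Finset.coe_image, Finset.coe_univ, image_univ, mem_range] at hx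
    obtain ⟨i, rfl⟩ := hx
    rcases hz i with h | h
    · exact Or.inl h.1
    · exact Or.inr h.1
  have hTc : (T : Set (EuclideanSpace ℝ (Fin d))).encard ≤ (d + 2 : ℕ) := by
    rw [Set.encard_coe_eq_coe_finsetCard]
    have : T.card ≤ (Finset.univ : Finset (Fin (d + 2))).card := Finset.card_image_le
    rw [Finset.card_univ, Fintype.card_fin] at this
    exact_mod_cast this
  obtain ⟨c, r, h0, h1, hX, hY⟩ := exists_sphere hd
    ((T.finite_toSet.inter_of_left B).isBounded) (h T hT hTc)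
  refine ⟨(c, r ^ 2 - ‖c‖ ^ 2), ?_, fun i => ?_⟩
  · simp only [P, mem_ofPred_eq]
    nlinarith
  · have hi : (z i).1 ∈ (T : Set (EuclideanSpace ℝ (Fin d))) := by
      simp [T]
    have hzi : z i = ((z i).1, (z i).2) := rfl
    rw [hzi, g_eq]
    rcases hz i with h | h
    · have h2 : (z i).2 = 1 := h.2
      have h3 := hX _ ⟨hi, h.1⟩
      rw [h2]
      have := dist_nonneg (x := (z i).1) (y := c)
      nlinarith
    · have h2 : (z i).2 = -1 := h.2
      have h3 := hY _ ⟨hi, h.1⟩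
      rw [h2]
      nlinarith

/-- The uniform gap, by compactness. -/
lemma exists_gap (hd : 1 ≤ d) {A B : Set (EuclideanSpace ℝ (Fin d))} (hA : IsCompact A)
    (hB : IsCompact B)
    (h : ∀ T : Set (EuclideanSpace ℝ (Fin d)), T ⊆ A ∪ B → T.encard ≤ (d + 2 : ℕ) →
      SmallSep (T ∩ A) (T ∩ B)) :
    ∃ ε > 0, ∀ z : Fin (d + 2) → EuclideanSpace ℝ (Fin d) × ℝ, (∀ i, z i ∈ Z A B) →
      ∃ p ∈ P d, ∀ i, ε ≤ g (z i) p := by
  have hZ : IsCompact (Z A B) := (hA.prod isCompact_singleton).union (hB.prod isCompact_singleton)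
  have hK : IsCompact (Set.pi univ (fun _ : Fin (d + 2) => Z A B)) := isCompact_univ_pi fun _ => hZ
  suffices H : ∃ ε > 0, ∀ z ∈ Set.pi univ (fun _ : Fin (d + 2) => Z A B),
      ∃ p ∈ P d, ∀ i, ε ≤ g (z i) p by
    obtain ⟨ε, hε, H⟩ := H
    exact ⟨ε, hε, fun z hz => H z (fun i _ => hz i)⟩
  refine hK.induction_on
    (p := fun K => ∃ ε > 0, ∀ z ∈ K, ∃ p ∈ P d, ∀ i, ε ≤ g (z i) p) ?_ ?_ ?_ ?_
  · exact ⟨1, one_pos, by simp⟩
  · rintro s t hst ⟨ε, hε, ht⟩
    exact ⟨ε, hε, fun z hz => ht z (hst hz)⟩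
  · rintro s t ⟨ε, hε, hs⟩ ⟨δ, hδ, ht⟩
    refine ⟨min ε δ, lt_min hε hδ, ?_⟩
    rintro z (hz | hz)
    · obtain ⟨p, hp, hp'⟩ := hs z hz
      exact ⟨p, hp, fun i => (min_le_left _ _).trans (hp' i)⟩
    · obtain ⟨p, hp, hp'⟩ := ht z hz
      exact ⟨p, hp, fun i => (min_le_right _ _).trans (hp' i)⟩
  · intro z hz
    obtain ⟨p, hp, hp'⟩ := exists_witness hd h z (fun i => hz i (mem_univ i))
    -- a positive lower bound of the finitely many values
    obtain ⟨i0, -, hi0⟩ := Finset.exists_min_image Finset.univ (fun i => g (z i) p)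
      ⟨(0 : Fin (d + 2)), Finset.mem_univ _⟩
    let δ := g (z i0) p / 2
    have hδ : 0 < δ := by
      have := hp' i0
      simp only [δ]
      linarith
    refine ⟨{z' | ∀ i, δ < g (z' i) p}, mem_nhdsWithin_of_mem_nhds ?_, δ, hδ, fun z' hz' =>
      ⟨p, hp, fun i => (hz' i).le⟩⟩
    have hopen : IsOpen {z' : Fin (d + 2) → EuclideanSpace ℝ (Fin d) × ℝ |
        ∀ i, δ < g (z' i) p} := by
      have : {z' : Fin (d + 2) → EuclideanSpace ℝ (Fin d) × ℝ | ∀ i, δ < g (z' i) p} =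
          ⋂ i, {z' | δ < g (z' i) p} := by
        ext z'
        simp
      rw [this]
      refine isOpen_iInter_of_finite fun i => ?_
      apply isOpen_lt continuous_const
      exact g_continuous.comp (by fun_prop : Continuous fun z' :
        Fin (d + 2) → EuclideanSpace ℝ (Fin d) × ℝ => (z' i, p))
    apply hopen.mem_nhds
    intro i
    have h1 := hi0 i (Finset.mem_univ _)
    have h2 := hp' i0
    simp only [δ]
    linarith

lemma main (hd : 1 ≤ d) {A B : Set (EuclideanSpace ℝ (Fin d))} (hA : IsCompact A)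
    (hB : IsCompact B)
    (h : ∀ T : Set (EuclideanSpace ℝ (Fin d)), T ⊆ A ∪ B → T.encard ≤ (d + 2 : ℕ) →
      SmallSep (T ∩ A) (T ∩ B)) : SmallSep A B := by
  classical
  rcases A.eq_empty_or_nonempty with rfl | ⟨a0, ha0⟩
  · -- the first set is empty
    obtain ⟨R, hR⟩ := hB.isBounded.subset_closedBall 0
    have : Nonempty (Fin d) := ⟨⟨0, by omega⟩⟩
    obtain ⟨c', hc'⟩ := exists_norm_eq (EuclideanSpace ℝ (Fin d)) (c := |R| + 2) (by positivity)
    refine smallSep_of c' 1 one_pos le_rfl (by simp) fun y hy => ?_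
    have h4 : ‖y‖ ≤ R := by simpa using hR hy
    have h5 : ‖c'‖ ≤ ‖y‖ + dist y c' := by
      rw [dist_eq_norm]
      calc ‖c'‖ = ‖y - (y - c')‖ := by congr 1; abel
        _ ≤ _ := norm_sub_le _ _
    have := le_abs_self R
    linarith
  obtain ⟨ε, hε, hgap⟩ := exists_gap hd hA hB h
  let F : ↥(Z A B) → Set (EuclideanSpace ℝ (Fin d) × ℝ) := fun z => {p | p ∈ P d ∧ ε ≤ g z p}
  have hrank : Module.finrank ℝ (EuclideanSpace ℝ (Fin d) × ℝ) + 1 = d + 2 := by
    rw [Module.finrank_prod, finrank_euclideanSpace, Fintype.card_fin, Module.finrank_self]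
  have hfin : ∀ I : Finset ↥(Z A B), (⋂ i ∈ I, F i).Nonempty := by
    intro I
    refine Convex.helly_theorem' (𝕜 := ℝ) (fun i _ => slab_convex ε (i : EuclideanSpace ℝ (Fin d) × ℝ)) ?_
    intro J _ hJ
    rw [hrank] at hJ
    rcases J.eq_empty_or_nonempty with rfl | hne
    · simp
    · have : Nonempty ↥J := hne.to_subtype
      obtain ⟨e⟩ := Function.Embedding.nonempty_of_card_le
        (α := ↥J) (β := Fin (d + 2)) (by simpa using hJ)
      have hs : Function.Surjective (Function.invFun e) := Function.invFun_surjective e.injective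
      obtain ⟨p, hp, hp'⟩ := hgap (fun k => ((Function.invFun e k : ↥J) : ↥(Z A B)))
        (fun k => ((Function.invFun e k : ↥J) : ↥(Z A B)).2)
      refine ⟨p, ?_⟩
      simp only [mem_iInter]
      intro i hi
      obtain ⟨k, hk⟩ := hs ⟨i, hi⟩
      have := hp' k
      rw [hk] at this
      exact ⟨hp, this⟩
  have hmem0 : ((a0, (1 : ℝ)) : EuclideanSpace ℝ (Fin d) × ℝ) ∈ Z A B := Or.inl ⟨ha0, rfl⟩
  have hne : (F ⟨_, hmem0⟩ ∩ ⋂ i, F i).Nonempty := by
    refine (slab_compact hε a0).inter_iInter_nonempty F (fun i => slab_closed ε (i : EuclideanSpace ℝ (Fin d) × ℝ)) ?_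
    intro I
    have := hfin (insert ⟨_, hmem0⟩ I)
    rw [Finset.set_biInter_insert] at this
    exact this
  obtain ⟨⟨c, s⟩, ⟨hp, hg⟩, hall⟩ := hne
  simp only [mem_iInter] at hall
  simp only [P, mem_ofPred_eq] at hp
  rw [show ((⟨(a0, (1 : ℝ)), hmem0⟩ : ↥(Z A B)) : EuclideanSpace ℝ (Fin d) × ℝ) = (a0, 1) from rfl,
    g_eq] at hg
  have hpos : 0 < s + ‖c‖ ^ 2 := by
    have := sq_nonneg (dist a0 c)
    linarith
  have hr : 0 < Real.sqrt (s + ‖c‖ ^ 2) := Real.sqrt_pos.2 hpos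
  have hr2 : Real.sqrt (s + ‖c‖ ^ 2) ^ 2 = s + ‖c‖ ^ 2 := Real.sq_sqrt hpos.le
  refine smallSep_of c (Real.sqrt (s + ‖c‖ ^ 2)) hr ?_ ?_ ?_
  · exact Real.sqrt_le_one.2 hp
  · intro x hx
    have h1 := (hall ⟨(x, 1), Or.inl ⟨hx, rfl⟩⟩).2
    rw [show ((⟨(x, (1 : ℝ)), Or.inl ⟨hx, rfl⟩⟩ : ↥(Z A B)) : EuclideanSpace ℝ (Fin d) × ℝ)
      = (x, 1) from rfl, g_eq] at h1
    refine lt_of_pow_lt_pow_left₀ 2 hr.le ?_
    rw [hr2]
    linarith
  · intro y hy
    have h1 := (hall ⟨(y, -1), Or.inr ⟨hy, rfl⟩⟩).2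
    rw [show ((⟨(y, (-1 : ℝ)), Or.inr ⟨hy, rfl⟩⟩ : ↥(Z A B)) : EuclideanSpace ℝ (Fin d) × ℝ)
      = (y, -1) from rfl, g_eq] at h1
    refine lt_of_pow_lt_pow_left₀ 2 dist_nonneg ?_
    rw [hr2]
    linarith

lemma StrictSep.mono {X Y X' Y' : Set (EuclideanSpace ℝ (Fin d))} {c : EuclideanSpace ℝ (Fin d)}
    {r : ℝ} (h : StrictSep X Y c r) (hX : X' ⊆ X) (hY : Y' ⊆ Y) : StrictSep X' Y' c r := by
  obtain ⟨h1, h2, h3⟩ := h
  refine ⟨h1.mono_left hX, h2.mono_left hY, ?_⟩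
  rcases h3 with ⟨h4, h5⟩ | ⟨h4, h5⟩
  · exact Or.inl ⟨hX.trans h4, hY.trans h5⟩
  · exact Or.inr ⟨hY.trans h4, hX.trans h5⟩

/-- **The question has a positive answer**: for compact sets `A`, `B` in Euclidean space of
dimension `d ≥ 1` the pair `(A, B)` is small-sphere separable if and only if `(T ∩ A, T ∩ B)` is
small-sphere separable for every `T ⊆ A ∪ B` with at most `d + 2` points. -/
theorem result (d : ℕ) (hd : 1 ≤ d) (A B : Set (EuclideanSpace ℝ (Fin d))) (hA : IsCompact A)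
    (hB : IsCompact B) :
    SmallSep A B ↔ ∀ T : Set (EuclideanSpace ℝ (Fin d)), T ⊆ A ∪ B → T.encard ≤ (d + 2 : ℕ) →
      SmallSep (T ∩ A) (T ∩ B) := by
  constructor
  · rintro ⟨c, r, h0, h1, h2, h3⟩ T _ _
    exact ⟨c, r, h0, h1, h2.mono inter_subset_right inter_subset_right,
      inter_subset_right.trans h3⟩
  · exact main hd hA hB

end Pool.Agent.Results.MP_f10258_co.CompactSeparation
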